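import Mathlib

/-! # Finite representations for cubic Pisot units with complex conjugates -/

set_option autoImplicit false

open Polynomial Finset

namespace Pool.Agent.Results.MP_f878ff_nt.FiniteRepresentations

/-! ## Bounding the coefficients of a quadratic polynomial -/

lemma coeff_bound (r : ℝ) (z : ℂ) (hz : z.im ≠ 0) :
    ∃ K : ℝ, 0 < K ∧ ∀ u v w A : ℝ, |u + v * r + w * r ^ 2| ≤ A →
      ‖(u : ℂ) + v * z + w * z ^ 2‖ ≤ A → |u| ≤ K * A ∧ |v| ≤ K * A ∧ |w| ≤ K * A := by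
  obtain ⟨p, q⟩ := z
  simp only at hz
  have hq : 0 < |q| := abs_pos.mpr hz
  set d := (r - p) ^ 2 + q ^ 2 with hd
  have hdpos : 0 < d := by positivity
  set Kw := (2 + |r - p| / |q|) / d with hKw
  have hKw0 : 0 ≤ Kw := by positivity
  set Kv := 1 / |q| + 2 * |p| * Kw with hKv
  have hKv0 : 0 ≤ Kv := by positivity
  set Ku := 1 + |p| / |q| + (p ^ 2 + q ^ 2) * Kw with hKu
  have hKu0 : 0 ≤ Ku := by positivity
  refine ⟨Ku + Kv + Kw + 1, by positivity, ?_⟩
  intro u v w A h1 h2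
  have hA : 0 ≤ A := (abs_nonneg _).trans h1
  have him := (Complex.abs_im_le_norm _).trans h2
  have hre := (Complex.abs_re_le_norm _).trans h2
  have e1 : ((u : ℂ) + v * (⟨p, q⟩ : ℂ) + w * (⟨p, q⟩ : ℂ) ^ 2).im = q * (v + 2 * p * w) := by
    simp [pow_two, Complex.add_im, Complex.mul_im]
    ring
  have e2 : ((u : ℂ) + v * (⟨p, q⟩ : ℂ) + w * (⟨p, q⟩ : ℂ) ^ 2).re = u + v * p + w * (p ^ 2 - q ^ 2) := by
    simp [pow_two, Complex.add_re, Complex.mul_re]
  rw [e1, abs_mul] at him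
  rw [e2] at hre
  set s := v + 2 * p * w with hs
  set t := u + v * p + w * (p ^ 2 - q ^ 2) with ht
  have hs1 : |s| ≤ A / |q| := by
    rw [le_div_iff₀ hq, mul_comm]
    exact him
  have hw : w * d = (u + v * r + w * r ^ 2) - t - s * (r - p) := by
    rw [hd, ht, hs]; ring
  have hw1 : |w| ≤ Kw * A := by
    have h3 : |w| * d ≤ (2 + |r - p| / |q|) * A := by
      have : |w| * d = |w * d| := by rw [abs_mul, abs_of_pos hdpos]
      rw [this, hw]
      calc |(u + v * r + w * r ^ 2) - t - s * (r - p)|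
          ≤ |(u + v * r + w * r ^ 2) - t| + |s * (r - p)| := abs_sub _ _
        _ ≤ (|u + v * r + w * r ^ 2| + |t|) + |s| * |r - p| := by
            rw [abs_mul]; gcongr; exact abs_sub _ _
        _ ≤ (A + A) + A / |q| * |r - p| := by gcongr
        _ = (2 + |r - p| / |q|) * A := by ring
    rw [hKw, div_mul_eq_mul_div, le_div_iff₀ hdpos]
    exact h3
  have hv1 : |v| ≤ Kv * A := by
    have : v = s - 2 * p * w := by rw [hs]; ring
    rw [this]
    calc |s - 2 * p * w| ≤ |s| + |2 * p * w| := abs_sub _ _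
      _ = |s| + 2 * |p| * |w| := by rw [abs_mul, abs_mul, abs_two]
      _ ≤ A / |q| + 2 * |p| * (Kw * A) := by gcongr
      _ = Kv * A := by rw [hKv]; ring
  have hu1 : |u| ≤ Ku * A := by
    have : u = t - s * p + w * (p ^ 2 + q ^ 2) := by rw [ht, hs]; ring
    rw [this]
    calc |t - s * p + w * (p ^ 2 + q ^ 2)| ≤ |t - s * p| + |w * (p ^ 2 + q ^ 2)| := abs_add_le _ _
      _ ≤ (|t| + |s * p|) + |w * (p ^ 2 + q ^ 2)| := by gcongr; exact abs_sub _ _
      _ = |t| + |s| * |p| + |w| * (p ^ 2 + q ^ 2) := by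
          rw [abs_mul, abs_mul, abs_of_nonneg (show 0 ≤ p ^ 2 + q ^ 2 by positivity)]
      _ ≤ A + A / |q| * |p| + Kw * A * (p ^ 2 + q ^ 2) := by gcongr
      _ = Ku * A := by rw [hKu]; ring
  refine ⟨hu1.trans ?_, hv1.trans ?_, hw1.trans ?_⟩ <;> gcongr <;> linarith

/-! ## A polynomial with positive coefficients -/

lemma exists_re_nonpos (z : ℂ) (hz : z.im ≠ 0) : ∃ M : ℕ, 1 ≤ M ∧ (z ^ M).re ≤ 0 := by
  by_contra hcon
  push Not at hcon
  have hz0 : z ≠ 0 := by rintro rfl; simp at hz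
  have hn : 0 < ‖z‖ := norm_pos_iff.mpr hz0
  -- the cosines
  let x : ℕ → ℝ := fun k => (z ^ (2 ^ k)).re / ‖z‖ ^ (2 ^ k)
  have hx0 : ∀ k, 0 < x k := fun k => div_pos (hcon _ (Nat.one_le_two_pow)) (by positivity)
  have hx1 : x 0 < 1 := by
    simp only [x, pow_zero, pow_one]
    rw [div_lt_one hn]
    exact (le_abs_self _).trans_lt (Complex.abs_re_lt_norm.mpr hz)
  have hrec : ∀ k, x (k + 1) = 2 * x k ^ 2 - 1 := by
    intro k
    simp only [x]
    have h1 : z ^ (2 ^ (k + 1)) = (z ^ (2 ^ k)) ^ 2 := by rw [← pow_mul, pow_succ]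
    have h2 : ‖z‖ ^ (2 ^ (k + 1)) = (‖z‖ ^ (2 ^ k)) ^ 2 := by rw [← pow_mul, pow_succ]
    have h3 : ‖z ^ (2 ^ k)‖ = ‖z‖ ^ (2 ^ k) := norm_pow _ _
    have h4 : (z ^ (2 ^ k)).re ^ 2 + (z ^ (2 ^ k)).im ^ 2 = (‖z‖ ^ (2 ^ k)) ^ 2 := by
      rw [← h3, ← Complex.normSq_eq_norm_sq, Complex.normSq_apply]; ring
    rw [h1, h2]
    have h5 : ((z ^ (2 ^ k)) ^ 2).re = 2 * (z ^ (2 ^ k)).re ^ 2 - (‖z‖ ^ (2 ^ k)) ^ 2 := by
      rw [pow_two (z ^ (2 ^ k)), Complex.mul_re]
      linarith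
    rw [h5]
    have h6 : (‖z‖ ^ (2 ^ k)) ≠ 0 := by positivity
    field_simp
  have hx1' : ∀ k, x k < 1 ∧ 2 ^ k * (1 - x 0) ≤ 1 - x k := by
    intro k
    induction k with
    | zero => exact ⟨hx1, by simp⟩
    | succ k ih =>
      obtain ⟨h1, h2⟩ := ih
      have h3 := hx0 k
      rw [hrec]
      constructor
      · nlinarith
      · rw [pow_succ]
        nlinarith
  obtain ⟨k, hk⟩ := exists_nat_gt (1 / (1 - x 0))
  have h1 := (hx1' k).2
  have h2 := hx0 k
  have h3 : (k : ℝ) ≤ 2 ^ k := by exact_mod_cast (Nat.lt_two_pow_self).le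
  have h4 : 0 < 1 - x 0 := by linarith
  rw [div_lt_iff₀ h4] at hk
  nlinarith

lemma exists_pos_poly (z : ℂ) (hz : z.im ≠ 0) :
    ∃ (P : ℝ[X]) (L : ℕ) (pm : ℝ), 3 ≤ L ∧ 0 < pm ∧ P.natDegree ≤ L ∧
      (∀ i ≤ L, pm ≤ P.coeff i) ∧ aeval z P = 0 := by
  obtain ⟨M, hM, hre⟩ := exists_re_nonpos z hz
  have hz0 : z ≠ 0 := by rintro rfl; simp at hz
  set w := z ^ M with hw
  have hw0 : w ≠ 0 := pow_ne_zero _ hz0
  have hn : 0 < ‖w‖ ^ 2 := by positivity
  set T : ℝ[X] := ∑ i ∈ range (2 * M), X ^ i with hT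
  have hTc : ∀ i, T.coeff i = if i < 2 * M then 1 else 0 := by
    intro i
    rw [hT, finsetSum_coeff]
    simp only [coeff_X_pow]
    simp [Finset.sum_ite_eq]
  have hTnn : ∀ i, 0 ≤ T.coeff i := by
    intro i; rw [hTc]; split_ifs <;> norm_num
  refine ⟨X ^ (2 * M) * T + C (-2 * w.re) * (X ^ M * T) + C (‖w‖ ^ 2) * T, 4 * M - 1,
    min 1 (‖w‖ ^ 2), by omega, lt_min one_pos hn, ?_, ?_, ?_⟩
  · have hTd : T.natDegree ≤ 2 * M - 1 := by
      rw [natDegree_le_iff_coeff_eq_zero]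
      intro N hN
      rw [hTc, if_neg (by omega)]
    rw [natDegree_le_iff_coeff_eq_zero]
    intro N hN
    rw [coeff_add, coeff_add, coeff_C_mul, coeff_C_mul, coeff_X_pow_mul', coeff_X_pow_mul']
    rw [if_pos (by omega), if_pos (by omega), hTc, hTc, hTc, if_neg (by omega), if_neg (by omega),
      if_neg (by omega)]
    ring
  · intro i hi
    rw [coeff_add, coeff_add, coeff_C_mul, coeff_C_mul, coeff_X_pow_mul', coeff_X_pow_mul']
    have h1 : 0 ≤ -2 * w.re * (if M ≤ i then T.coeff (i - M) else 0) := by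
      apply mul_nonneg (by linarith)
      split_ifs
      · exact hTnn _
      · exact le_rfl
    rcases Nat.lt_or_ge i (2 * M) with h | h
    · rw [if_neg (by omega), hTc i, if_pos h]
      have := min_le_right 1 (‖w‖ ^ 2)
      linarith
    · rw [if_pos h, hTc (i - 2 * M), if_pos (by omega)]
      have := min_le_left 1 (‖w‖ ^ 2)
      have h2 : 0 ≤ ‖w‖ ^ 2 * T.coeff i := mul_nonneg hn.le (hTnn _)
      linarith
  · have h1 : w ^ 2 - 2 * w.re * w + ‖w‖ ^ 2 = 0 := by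
      have h2 : ((‖w‖ ^ 2 : ℝ) : ℂ) = w.re ^ 2 + w.im ^ 2 := by
        rw [← Complex.normSq_eq_norm_sq, Complex.normSq_apply]
        push_cast
        ring
      push_cast at h2
      rw [h2]
      have h3 : w = w.re + w.im * Complex.I := (Complex.re_add_im w).symm
      have h4 : Complex.I ^ 2 = -1 := Complex.I_sq
      calc w ^ 2 - 2 * w.re * w + (w.re ^ 2 + w.im ^ 2)
          = (w - w.re) ^ 2 + w.im ^ 2 := by ring
        _ = (w.im * Complex.I) ^ 2 + w.im ^ 2 := by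
            congr 2
            nth_rewrite 1 [h3]
            ring
        _ = 0 := by rw [mul_pow, h4]; ring
    have h5 : z ^ (2 * M) = w ^ 2 := by rw [hw, ← pow_mul, mul_comm]
    simp only [map_add, map_mul, map_pow, aeval_X, aeval_C, h5, ← hw]
    have h6 : (w ^ 2 * aeval z T + (algebraMap ℝ ℂ) (-2 * w.re) * (w * aeval z T) +
        (algebraMap ℝ ℂ) (‖w‖ ^ 2) * aeval z T) =
        (w ^ 2 - 2 * w.re * w + ‖w‖ ^ 2) * aeval z T := by
      simp only [Complex.coe_algebraMap]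
      push_cast
      ring
    simp only [map_mul, map_pow, map_neg] at h6 ⊢
    rw [h6, h1, zero_mul]

/-! ## The main construction -/

section main

variable (c0 c1 c2 : ℤ) (β : ℝ) (β' : ℂ)

/-- the minimal polynomial of `β⁻¹` -/
noncomputable def G : ℤ[X] := X ^ 3 + C (c0 * c1) * X ^ 2 + C (c0 * c2) * X + C c0

lemma G_monic : (G c0 c1 c2).Monic := by
  unfold G
  monicity!

lemma G_natDegree : (G c0 c1 c2).natDegree = 3 := by
  unfold G
  compute_degree!

lemma G_root {R : Type*} [Field R] (x : R) (hx : x ≠ 0) (h0 : c0 ^ 2 = 1)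
    (h : x ^ 3 + c2 * x ^ 2 + c1 * x + c0 = 0) : aeval x⁻¹ (G c0 c1 c2) = 0 := by
  unfold G
  simp only [map_add, map_mul, map_pow, aeval_X, eq_intCast, map_intCast]
  have h0' : (c0 : R) ^ 2 = 1 := by rw [← Int.cast_pow, h0, Int.cast_one]
  have h2 : (x⁻¹) ^ 3 + c0 * c1 * (x⁻¹) ^ 2 + c0 * c2 * x⁻¹ + c0 =
      c0 * (x⁻¹) ^ 3 * (x ^ 3 + c2 * x ^ 2 + c1 * x + c0) := by
    have hx1 : x⁻¹ * x = 1 := inv_mul_cancel₀ hx
    have e1 : (x⁻¹) ^ 3 * x ^ 3 = 1 := by rw [← mul_pow, hx1, one_pow]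
    have e2 : (x⁻¹) ^ 3 * x ^ 2 = x⁻¹ := by
      rw [pow_succ, mul_right_comm, ← mul_pow, hx1]; ring
    have e3 : (x⁻¹) ^ 3 * x = (x⁻¹) ^ 2 := by
      rw [pow_succ, mul_assoc, hx1, mul_one]
    calc (x⁻¹) ^ 3 + c0 * c1 * (x⁻¹) ^ 2 + c0 * c2 * x⁻¹ + c0
        = c0 ^ 2 * (x⁻¹) ^ 3 + c0 * c1 * ((x⁻¹) ^ 3 * x) + c0 * c2 * ((x⁻¹) ^ 3 * x ^ 2) +
          c0 * ((x⁻¹) ^ 3 * x ^ 3) := by rw [e1, e2, e3, h0']; ring
      _ = c0 * (x⁻¹) ^ 3 * (x ^ 3 + c2 * x ^ 2 + c1 * x + c0) := by ring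
  rw [h2, h, mul_zero]

/-- a polynomial expressing `β` in terms of `β⁻¹` -/
noncomputable def B : ℤ[X] := C (-c0) * (X ^ 2 + C (c0 * c1) * X + C (c0 * c2))

lemma B_eval {R : Type*} [Field R] (x : R) (hx : x ≠ 0) (h0 : c0 ^ 2 = 1)
    (h : x ^ 3 + c2 * x ^ 2 + c1 * x + c0 = 0) : aeval x⁻¹ (B c0 c1 c2) = x := by
  have h0' : (c0 : R) ^ 2 = 1 := by rw [← Int.cast_pow, h0, Int.cast_one]
  have h1 := G_root c0 c1 c2 x hx h0 h
  unfold G at h1
  unfold B
  simp only [map_add, map_mul, map_pow, aeval_X, eq_intCast, map_intCast] at h1 ⊢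
  push_cast at h1 ⊢
  have hx1 : x⁻¹ * x = 1 := inv_mul_cancel₀ hx
  have h2 : (-c0 * ((x⁻¹) ^ 2 + c0 * c1 * x⁻¹ + c0 * c2) - x) * x⁻¹ = 0 := by
    have : (-c0 * ((x⁻¹) ^ 2 + c0 * c1 * x⁻¹ + c0 * c2) - x) * x⁻¹ =
      -c0 * ((x⁻¹) ^ 3 + c0 * c1 * (x⁻¹) ^ 2 + c0 * c2 * x⁻¹ + c0) + c0 ^ 2 - x⁻¹ * x := by ring
    rw [this, h1, h0', hx1]
    ring
  rcases mul_eq_zero.mp h2 with h3 | h3
  · linear_combination h3
  · exact absurd h3 (inv_ne_zero hx)

/-- the integer polynomial of degree at most `2` with prescribed values -/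
lemma exists_U (X' : ℤ[X]) (N : ℕ) (h0 : c0 ^ 2 = 1) :
    ∃ U : ℤ[X], U.natDegree ≤ 2 ∧
      ∀ {R : Type} [Field R] (x : R), x ≠ 0 → x ^ 3 + c2 * x ^ 2 + c1 * x + c0 = 0 →
        aeval x⁻¹ U = aeval x X' * x ^ N := by
  refine ⟨(X'.comp (B c0 c1 c2) * B c0 c1 c2 ^ N) %ₘ G c0 c1 c2, ?_, ?_⟩
  · have h1 := natDegree_modByMonic_lt (X'.comp (B c0 c1 c2) * B c0 c1 c2 ^ N) (G_monic c0 c1 c2)
      (by
        intro h
        have h2 := G_natDegree c0 c1 c2
        rw [h] at h2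
        simp at h2)
    rw [G_natDegree] at h1
    omega
  · intro R _ x hx h
    have h1 : aeval x⁻¹ ((X'.comp (B c0 c1 c2) * B c0 c1 c2 ^ N) %ₘ G c0 c1 c2) =
        aeval x⁻¹ (X'.comp (B c0 c1 c2) * B c0 c1 c2 ^ N) := by
      have h2 := congrArg (aeval x⁻¹)
        (modByMonic_add_div (X'.comp (B c0 c1 c2) * B c0 c1 c2 ^ N) (G c0 c1 c2))
      rw [map_add, map_mul, G_root c0 c1 c2 x hx h0 h, zero_mul, add_zero] at h2
      exact h2
    rw [h1, map_mul, map_pow, aeval_comp, B_eval c0 c1 c2 x hx h0 h]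

/-- a real polynomial of degree at most `2` -/
lemma poly_form {R : Type*} [CommRing R] (U : R[X]) (h : U.natDegree ≤ 2) :
    U = C (U.coeff 0) + C (U.coeff 1) * X + C (U.coeff 2) * X ^ 2 := by
  conv_lhs => rw [U.as_sum_range' 3 (by omega)]
  simp [Finset.sum_range_succ, C_mul_X_pow_eq_monomial, monomial_zero_left]
  rw [← C_mul_X_eq_monomial]

lemma dvd_of_roots (h0 : c0 ^ 2 = 1) (hβ : β ≠ 0) (hβ' : β'.im ≠ 0)
    (h1 : β ^ 3 + c2 * β ^ 2 + c1 * β + c0 = 0) (h2 : β' ^ 3 + c2 * β' ^ 2 + c1 * β' + c0 = 0)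
    (D : ℝ[X]) (e1 : aeval β⁻¹ D = 0) (e2 : aeval β'⁻¹ D = 0) :
    (G c0 c1 c2).map (algebraMap ℤ ℝ) * (D /ₘ (G c0 c1 c2).map (algebraMap ℤ ℝ)) = D := by
  set Gr := (G c0 c1 c2).map (algebraMap ℤ ℝ) with hGr
  have hβ'0 : β' ≠ 0 := by rintro rfl; simp at hβ'
  have hm : Gr.Monic := (G_monic c0 c1 c2).map _
  have hd : Gr.natDegree = 3 := by
    rw [hGr, (G_monic c0 c1 c2).natDegree_map, G_natDegree]
  have g1 : aeval β⁻¹ Gr = 0 := by
    rw [hGr, aeval_map_algebraMap]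
    exact G_root c0 c1 c2 β hβ h0 h1
  have g2 : aeval β'⁻¹ Gr = 0 := by
    rw [hGr, aeval_map_algebraMap]
    exact G_root c0 c1 c2 β' hβ'0 h0 h2
  have hdiv := modByMonic_add_div D Gr
  set R := D %ₘ Gr with hR
  have hRd : R.natDegree ≤ 2 := by
    have := natDegree_modByMonic_lt D hm (by
      intro h
      rw [h] at hd
      simp at hd)
    rw [hd, ← hR] at this
    omega
  have r1 : aeval β⁻¹ R = 0 := by
    have := congrArg (aeval β⁻¹) hdiv
    rw [map_add, map_mul, g1, zero_mul, add_zero, e1] at this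
    exact this
  have r2 : aeval β'⁻¹ R = 0 := by
    have := congrArg (aeval β'⁻¹) hdiv
    rw [map_add, map_mul, g2, zero_mul, add_zero, e2] at this
    exact this
  have hinv : (β'⁻¹).im ≠ 0 := by
    rw [Complex.inv_im]
    exact div_ne_zero (neg_ne_zero.mpr hβ') (by simpa using hβ'0)
  obtain ⟨K, hK, hbd⟩ := coeff_bound β⁻¹ β'⁻¹ hinv
  have hform := poly_form R hRd
  have s1 := r1
  have s2 := r2
  rw [hform] at s1 s2
  simp only [map_add, map_mul, map_pow, aeval_X, aeval_C, Complex.coe_algebraMap] at s1 s2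
  have := hbd (R.coeff 0) (R.coeff 1) (R.coeff 2) 0
    (by
      have : R.coeff 0 + R.coeff 1 * β⁻¹ + R.coeff 2 * β⁻¹ ^ 2 = 0 := s1
      rw [this]; simp)
    (by rw [s2]; simp)
  simp only [mul_zero, abs_nonpos_iff] at this
  obtain ⟨t0, t1, t2⟩ := this
  have hR0 : R = 0 := by
    rw [hform, t0, t1, t2]
    simp
  rw [hR0, zero_add] at hdiv
  exact hdiv

/-- every positive element of `ℤ[β]` is a polynomial in `β⁻¹` with nonnegative coefficients,
after multiplication by a power of `β` -/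
lemma pos_rep (h0 : c0 ^ 2 = 1) (hβ : 1 < β) (hβ' : β'.im ≠ 0) (hn : ‖β'‖ < 1)
    (h1 : β ^ 3 + c2 * β ^ 2 + c1 * β + c0 = 0) (h2 : β' ^ 3 + c2 * β' ^ 2 + c1 * β' + c0 = 0)
    (X' : ℤ[X]) (hX : 0 < aeval β X') :
    ∃ (c : ℤ[X]) (N : ℕ), (∀ i, 0 ≤ c.coeff i) ∧ aeval β X' * β ^ (N + 1) = aeval β⁻¹ c := by
  have hβ0 : β ≠ 0 := by linarith
  have hβ'0 : β' ≠ 0 := by rintro rfl; simp at hβ'
  have hρ0 : 0 < β⁻¹ := by positivity
  have hρ1 : β⁻¹ < 1 := inv_lt_one_of_one_lt₀ hβ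
  have hinv : (β'⁻¹).im ≠ 0 := by
    rw [Complex.inv_im]
    exact div_ne_zero (neg_ne_zero.mpr hβ') (by simpa using hβ'0)
  have hinvpos : 0 < |(β'⁻¹).im| := abs_pos.mpr hinv
  obtain ⟨P, L, pm, hL, hpm, hPd, hPc, hP0⟩ := exists_pos_poly β'⁻¹ hinv
  set Y0 := ‖aeval β' X'‖ with hY0
  set E1 := Y0 / |(β'⁻¹).im| with hE1
  set E0 := Y0 + E1 * ‖β'⁻¹‖ with hE0
  have hE1n : 0 ≤ E1 := by positivity
  have hE0n : 0 ≤ E0 := by positivity
  set S : ℝ := 1 + |((c0 * c1 : ℤ) : ℝ)| + |((c0 * c2 : ℤ) : ℝ)| + |(c0 : ℝ)| with hS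
  have hPρ : 0 < aeval β⁻¹ P := by
    rw [aeval_eq_sum_range' (show P.natDegree < L + 1 by omega)]
    apply Finset.sum_pos
    · intro i hi
      rw [Finset.mem_range] at hi
      rw [smul_eq_mul]
      exact mul_pos (hpm.trans_le (hPc i (by omega))) (by positivity)
    · exact ⟨0, by simp⟩
  -- choice of `N`
  obtain ⟨N, hN⟩ : ∃ N : ℕ, (E0 + E1 + S) / pm * aeval β⁻¹ P + E0 + E1 ≤ aeval β X' * β ^ (N + 1) := by
    obtain ⟨N, hN⟩ := pow_unbounded_of_one_lt
      (((E0 + E1 + S) / pm * aeval β⁻¹ P + E0 + E1) / aeval β X') hβ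
    refine ⟨N, ?_⟩
    rw [div_lt_iff₀ hX] at hN
    have : β ^ N ≤ β ^ (N + 1) := pow_le_pow_right₀ hβ.le (by omega)
    nlinarith
  obtain ⟨U, hUd, hU⟩ := exists_U c0 c1 c2 X' (N + 1) h0
  have hUρ := hU β hβ0 h1
  have hUγ := hU β' hβ'0 h2
  set y' := aeval β' X' * β' ^ (N + 1) with hy'
  have hy'n : ‖y'‖ ≤ Y0 := by
    rw [hy', norm_mul, norm_pow]
    calc ‖aeval β' X'‖ * ‖β'‖ ^ (N + 1) ≤ ‖aeval β' X'‖ * 1 := by
          gcongr
          exact pow_le_one₀ (norm_nonneg _) hn.le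
      _ = Y0 := by rw [mul_one]
  set e1 := y'.im / (β'⁻¹).im with he1
  set e0 := y'.re - e1 * (β'⁻¹).re with he0
  have he1n : |e1| ≤ E1 := by
    rw [he1, abs_div]
    exact div_le_div_of_nonneg_right ((Complex.abs_im_le_norm _).trans hy'n) hinvpos.le
  have he0n : |e0| ≤ E0 := by
    rw [he0]
    calc |y'.re - e1 * (β'⁻¹).re| ≤ |y'.re| + |e1 * (β'⁻¹).re| := abs_sub _ _
      _ = |y'.re| + |e1| * |(β'⁻¹).re| := by rw [abs_mul]
      _ ≤ Y0 + E1 * ‖β'⁻¹‖ := by
          gcongr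
          · exact (Complex.abs_re_le_norm _).trans hy'n
          · exact Complex.abs_re_le_norm _
  have heγ : (e0 : ℂ) + e1 * β'⁻¹ = y' := by
    apply Complex.ext
    · simp only [Complex.add_re, Complex.mul_re, Complex.ofReal_re, Complex.ofReal_im]
      rw [he0]; ring
    · simp only [Complex.add_im, Complex.mul_im, Complex.ofReal_re, Complex.ofReal_im]
      rw [he1, div_mul_cancel₀ _ hinv]
      ring
  set κ := (aeval β⁻¹ U - (e0 + e1 * β⁻¹)) / aeval β⁻¹ P with hκ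
  have hκ1 : (E0 + E1 + S) / pm ≤ κ := by
    rw [hκ, le_div_iff₀ hPρ, hUρ]
    have a1 := le_abs_self e0
    have a2 : e1 * β⁻¹ ≤ E1 := by
      calc e1 * β⁻¹ ≤ |e1| * 1 := by
            have := le_abs_self e1
            have := abs_nonneg e1
            nlinarith
        _ ≤ E1 := by linarith
    linarith
  have hκ2 : E0 + E1 + S ≤ κ * pm := by rwa [div_le_iff₀ hpm] at hκ1
  have hS0 : 0 ≤ S := by positivity
  have hκ0 : 0 ≤ κ := by
    by_contra hneg
    push Not at hneg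
    nlinarith
  set D : ℝ[X] := C κ * P + (C e0 + C e1 * X) - U.map (algebraMap ℤ ℝ) with hD
  have hD1 : aeval β⁻¹ D = 0 := by
    rw [hD]
    simp only [map_sub, map_add, map_mul, aeval_C, aeval_X, aeval_map_algebraMap,
      Algebra.algebraMap_self, RingHom.id_apply]
    rw [hκ, div_mul_cancel₀ _ hPρ.ne']
    ring
  have hD2 : aeval β'⁻¹ D = 0 := by
    rw [hD]
    simp only [map_sub, map_add, map_mul, aeval_C, aeval_X, aeval_map_algebraMap,
      Complex.coe_algebraMap, hP0, mul_zero, zero_add]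
    rw [heγ, hUγ, sub_self]
  have hdiv := dvd_of_roots c0 c1 c2 β β' h0 hβ0 hβ' h1 h2 D hD1 hD2
  set Gr := (G c0 c1 c2).map (algebraMap ℤ ℝ) with hGr
  have hGm : Gr.Monic := (G_monic c0 c1 c2).map _
  have hGd : Gr.natDegree = 3 := by
    rw [hGr, (G_monic c0 c1 c2).natDegree_map, G_natDegree]
  set Q := D /ₘ Gr with hQ
  have hDd : D.natDegree ≤ L := by
    rw [hD]
    refine (natDegree_sub_le _ _).trans (max_le ?_ ?_)
    · refine (natDegree_add_le _ _).trans (max_le ?_ ?_)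
      · exact (natDegree_C_mul_le _ _).trans hPd
      · refine (natDegree_add_le _ _).trans (max_le ?_ ?_)
        · simp
        · exact (natDegree_C_mul_le _ _).trans (natDegree_X_le.trans (by omega))
    · exact natDegree_map_le.trans (by omega)
  have hQd : Q.natDegree ≤ L - 3 := by
    rw [hQ, natDegree_divByMonic _ hGm, hGd]
    omega
  -- rounding
  set r : ℤ[X] := ∑ i ∈ range (L - 3 + 1), C ⌊Q.coeff i⌋ * X ^ i with hr
  have hrc : ∀ i, r.coeff i = ⌊Q.coeff i⌋ := by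
    intro i
    rw [hr, finsetSum_coeff]
    simp only [coeff_C_mul, coeff_X_pow, mul_ite, mul_one, mul_zero]
    rw [Finset.sum_ite_eq]
    split_ifs with h
    · rfl
    · rw [Finset.mem_range] at h
      rw [coeff_eq_zero_of_natDegree_lt (show Q.natDegree < i by omega)]
      simp
  set δ : ℝ[X] := Q - r.map (algebraMap ℤ ℝ) with hδ
  have hδc : ∀ i, |δ.coeff i| ≤ 1 := by
    intro i
    rw [hδ, coeff_sub, coeff_map, hrc, abs_le]
    have a1 := Int.floor_le (Q.coeff i)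
    have a2 := Int.lt_floor_add_one (Q.coeff i)
    simp only [algebraMap_int_eq, eq_intCast]
    constructor <;> linarith
  have hδz : ∀ i, L - 3 < i → δ.coeff i = 0 := by
    intro i hi
    rw [hδ, coeff_sub, coeff_map, hrc, coeff_eq_zero_of_natDegree_lt (show Q.natDegree < i by omega)]
    simp
  have hGδ : ∀ i, (Gr * δ).coeff i = (if 3 ≤ i then δ.coeff (i - 3) else 0) +
      ((c0 * c1 : ℤ) : ℝ) * (if 2 ≤ i then δ.coeff (i - 2) else 0) +
      ((c0 * c2 : ℤ) : ℝ) * (if 1 ≤ i then δ.coeff (i - 1) else 0) + (c0 : ℝ) * δ.coeff i := by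
    intro i
    have e : Gr * δ = X ^ 3 * δ + C (((c0 * c1 : ℤ) : ℝ)) * (X ^ 2 * δ) +
        C (((c0 * c2 : ℤ) : ℝ)) * (X ^ 1 * δ) + C (c0 : ℝ) * δ := by
      rw [hGr, G]
      simp only [Polynomial.map_add, Polynomial.map_mul, Polynomial.map_pow, Polynomial.map_X,
        Polynomial.map_C, algebraMap_int_eq, Int.coe_castRingHom]
      ring
    rw [e, coeff_add, coeff_add, coeff_add, coeff_C_mul, coeff_C_mul, coeff_C_mul,
      coeff_X_pow_mul', coeff_X_pow_mul', coeff_X_pow_mul']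
  have hGδb : ∀ i, |(Gr * δ).coeff i| ≤ S := by
    intro i
    rw [hGδ]
    have b : ∀ k, |(if k ≤ i then δ.coeff (i - k) else 0)| ≤ 1 := by
      intro k
      split_ifs
      · exact hδc _
      · simp
    refine (abs_add_le _ _).trans ?_
    refine (add_le_add_left (abs_add_le _ _) _).trans ?_
    refine (add_le_add_left (add_le_add_left (abs_add_le _ _) _) _).trans ?_
    rw [abs_mul, abs_mul, abs_mul, hS]
    have b3 := b 3
    have b2 := mul_le_mul_of_nonneg_left (b 2) (abs_nonneg ((c0 * c1 : ℤ) : ℝ))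
    have b1 := mul_le_mul_of_nonneg_left (b 1) (abs_nonneg ((c0 * c2 : ℤ) : ℝ))
    have b0 := mul_le_mul_of_nonneg_left (hδc i) (abs_nonneg (c0 : ℝ))
    linarith
  refine ⟨U + G c0 c1 c2 * r, N, ?_, ?_⟩
  · intro i
    have e : (((U + G c0 c1 c2 * r).coeff i : ℤ) : ℝ) =
        κ * P.coeff i + (C e0 + C e1 * X : ℝ[X]).coeff i - (Gr * δ).coeff i := by
      have e2 : (U + G c0 c1 c2 * r).map (algebraMap ℤ ℝ) = C κ * P + (C e0 + C e1 * X) - Gr * δ := by
        rw [Polynomial.map_add, Polynomial.map_mul, ← hGr, hδ, mul_sub, hdiv, hD]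
        ring
      have e3 := congrArg (fun p => p.coeff i) e2
      simp only [coeff_map, coeff_sub, coeff_add, coeff_C_mul] at e3
      simp only [coeff_add, coeff_C_mul]
      rw [← e3]
      simp
    have hnn : (0 : ℝ) ≤ (((U + G c0 c1 c2 * r).coeff i : ℤ) : ℝ) := by
      rw [e]
      rcases Nat.lt_or_ge L i with hi | hi
      · have z1 : P.coeff i = 0 := coeff_eq_zero_of_natDegree_lt (by omega)
        have z2 : (C e0 + C e1 * X : ℝ[X]).coeff i = 0 := by
          apply coeff_eq_zero_of_natDegree_lt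
          have : (C e0 + C e1 * X : ℝ[X]).natDegree ≤ 1 := by
            refine (natDegree_add_le _ _).trans (max_le ?_ ?_)
            · simp
            · exact (natDegree_C_mul_le _ _).trans natDegree_X_le
          omega
        have z3 : (Gr * δ).coeff i = 0 := by
          rw [hGδ, if_pos (by omega), if_pos (by omega), if_pos (by omega), hδz _ (by omega),
            hδz _ (by omega), hδz _ (by omega), hδz _ (by omega)]
          ring
        rw [z1, z2, z3]
        simp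
      · have b1 : κ * pm ≤ κ * P.coeff i := mul_le_mul_of_nonneg_left (hPc i hi) hκ0
        have b2 := (abs_le.mp (hGδb i)).2
        have b3 : -(E0 + E1) ≤ (C e0 + C e1 * X : ℝ[X]).coeff i := by
          have q0 := (abs_le.mp he0n).1
          have q1 := (abs_le.mp he1n).1
          rcases i with _ | _ | i
          · simp
            linarith
          · simp [coeff_C]
            linarith
          · simp
            linarith
        linarith
    exact_mod_cast hnn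
  · rw [map_add, map_mul, G_root c0 c1 c2 β hβ0 h0 h1, zero_mul, add_zero, hUρ]

end main

/-! ## Representations -/

/-- `x` has a finite `β`-representation over `{0,…,m}` -/
def HasRep (β : ℝ) (m : ℕ) (x : ℝ) : Prop :=
  ∃ (k : ℕ) (a : ℕ → ℕ), (∀ j, a j ≤ m) ∧ x = ∑ j ∈ range k, (a j : ℝ) / β ^ (j + 1)

lemma HasRep.mono {β : ℝ} {m m' : ℕ} {x : ℝ} (h : HasRep β m x) (hm : m ≤ m') :
    HasRep β m' x := by
  obtain ⟨k, a, h1, h2⟩ := h
  exact ⟨k, a, fun j => (h1 j).trans hm, h2⟩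

lemma HasRep.cons {β : ℝ} (hβ : β ≠ 0) {m : ℕ} {x : ℝ} (h : HasRep β m x) (d : ℕ) (hd : d ≤ m) :
    HasRep β m ((d + x) / β) := by
  obtain ⟨k, a, h1, h2⟩ := h
  refine ⟨k + 1, fun j => if j = 0 then d else a (j - 1), ?_, ?_⟩
  · intro j
    simp only
    split_ifs
    · exact hd
    · exact h1 _
  · rw [Finset.sum_range_succ']
    simp only [Nat.add_sub_cancel, if_true, Nat.succ_ne_zero, if_false, zero_add, pow_one]
    rw [h2, add_div, Finset.sum_div, add_comm]
    congr 1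
    refine Finset.sum_congr rfl fun j _ => ?_
    rw [div_div, ← pow_succ]

lemma hasRep_zero (β : ℝ) (m : ℕ) : HasRep β m 0 := ⟨0, fun _ => 0, by simp, by simp⟩

lemma exists_hasRep (c0 c1 c2 : ℤ) (β : ℝ) (β' : ℂ) (h0 : c0 ^ 2 = 1) (hβ : 1 < β)
    (hβ' : β'.im ≠ 0) (hn : ‖β'‖ < 1)
    (h1 : β ^ 3 + c2 * β ^ 2 + c1 * β + c0 = 0) (h2 : β' ^ 3 + c2 * β' ^ 2 + c1 * β' + c0 = 0)
    (X' : ℤ[X]) (hX : 0 ≤ aeval β X') : ∃ m, HasRep β m (aeval β X') := by
  have hβ0 : β ≠ 0 := by linarith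
  rcases hX.eq_or_lt with hX | hX
  · exact ⟨0, by rw [← hX]; exact hasRep_zero _ _⟩
  obtain ⟨c, N, hc, hN⟩ := pos_rep c0 c1 c2 β β' h0 hβ hβ' hn h1 h2 X' hX
  -- bound for the digits
  set m := (range (c.natDegree + 1)).sup (fun i => (c.coeff i).toNat) with hm
  refine ⟨m, ?_⟩
  have hbase : HasRep β m (aeval β X' * β ^ N) := by
    refine ⟨c.natDegree + 1, fun i => if i < c.natDegree + 1 then (c.coeff i).toNat else 0, ?_, ?_⟩
    · intro j
      simp only
      split_ifs with h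
      · exact Finset.le_sup (f := fun i => (c.coeff i).toNat) (Finset.mem_range.mpr h)
      · exact Nat.zero_le _
    · have e1 : aeval β X' * β ^ N = aeval β⁻¹ c / β := by
        rw [← hN, pow_succ]
        field_simp
      rw [e1, aeval_eq_sum_range, Finset.sum_div]
      refine Finset.sum_congr rfl fun i hi => ?_
      rw [Finset.mem_range] at hi
      simp only [hi, if_true]
      have e2 : (((c.coeff i).toNat : ℕ) : ℝ) = (c.coeff i : ℝ) := by
        have := Int.toNat_of_nonneg (hc i)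
        exact_mod_cast congrArg (Int.cast : ℤ → ℝ) this
      rw [e2, zsmul_eq_mul, inv_pow, pow_succ]
      field_simp
  -- divide by `β` repeatedly
  have hstep : ∀ n, ∀ x : ℝ, HasRep β m (x * β ^ n) → HasRep β m x := by
    intro n
    induction n with
    | zero => intro x hx; simpa using hx
    | succ n ih =>
      intro x hx
      apply ih
      have := hx.cons hβ0 0 (Nat.zero_le _)
      have e : ((0 : ℕ) + x * β ^ (n + 1)) / β = x * β ^ n := by
        rw [pow_succ]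
        push_cast
        field_simp
        ring
      rwa [e] at this
  exact hstep N _ hbase

lemma finite_small (β : ℝ) (β' : ℂ) (hβ' : β'.im ≠ 0) (A : ℝ) :
    {R : ℤ[X] | R.natDegree ≤ 2 ∧ |aeval β R| ≤ A ∧ ‖aeval β' R‖ ≤ A}.Finite := by
  obtain ⟨K, hK, hb⟩ := coeff_bound β β' hβ'
  set T : Finset ℤ := Finset.Icc (-⌈K * A⌉) ⌈K * A⌉
  have hfin : (Set.range fun t : T × T × T =>
      (C (t.1 : ℤ) + C (t.2.1 : ℤ) * X + C (t.2.2 : ℤ) * X ^ 2 : ℤ[X])).Finite :=
    Set.finite_range _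
  refine hfin.subset ?_
  rintro R ⟨hd, h1, h2⟩
  have hform := poly_form R hd
  have h1' := h1
  have h2' := h2
  rw [hform] at h1' h2'
  simp only [map_add, map_mul, map_pow, aeval_X, eq_intCast, map_intCast] at h1' h2'
  obtain ⟨b0, b1, b2⟩ := hb (R.coeff 0) (R.coeff 1) (R.coeff 2) A (by simpa using h1')
    (by simpa using h2')
  have hT : ∀ z : ℤ, |(z : ℝ)| ≤ K * A → z ∈ T := by
    intro z hz
    rw [abs_le] at hz
    rw [Finset.mem_Icc]
    have := Int.le_ceil (K * A)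
    constructor
    · have : (-(⌈K * A⌉ : ℤ) : ℝ) ≤ z := by linarith
      exact_mod_cast this
    · have : (z : ℝ) ≤ ⌈K * A⌉ := by linarith
      exact_mod_cast this
  exact ⟨⟨⟨_, hT _ b0⟩, ⟨_, hT _ b1⟩, ⟨_, hT _ b2⟩⟩, hform.symm⟩

/-- one step of the greedy expansion, on polynomials -/
noncomputable def greedy (β : ℝ) (Q : ℤ[X]) : ℤ[X] := X * Q - C ⌊β * aeval β Q⌋

lemma uniform (c0 c1 c2 : ℤ) (β : ℝ) (β' : ℂ) (h0 : c0 ^ 2 = 1) (hβ : 1 < β)
    (hβ' : β'.im ≠ 0) (hn : ‖β'‖ < 1)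
    (h1 : β ^ 3 + c2 * β ^ 2 + c1 * β + c0 = 0) (h2 : β' ^ 3 + c2 * β' ^ 2 + c1 * β' + c0 = 0) :
    ∃ m, ∀ X' : ℤ[X], 0 ≤ aeval β X' → aeval β X' < 1 → HasRep β m (aeval β X') := by
  have hβ0 : β ≠ 0 := by linarith
  set F : ℤ[X] := X ^ 3 + C c2 * X ^ 2 + C c1 * X + C c0 with hF
  have hFm : F.Monic := by rw [hF]; monicity!
  have hFd : F.natDegree = 3 := by rw [hF]; compute_degree!
  have hFβ : aeval β F = 0 := by
    rw [hF]
    simp only [map_add, map_mul, map_pow, aeval_X, eq_intCast, map_intCast]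
    exact h1
  have hFβ' : aeval β' F = 0 := by
    rw [hF]
    simp only [map_add, map_mul, map_pow, aeval_X, eq_intCast, map_intCast]
    exact h2
  set Cb : ℝ := β / (1 - ‖β'‖) + 1 with hCb
  have hl : 0 < 1 - ‖β'‖ := by linarith
  have hCb1 : 1 ≤ Cb := by
    have : 0 < β / (1 - ‖β'‖) := by positivity
    linarith
  have hfin := finite_small β β' hβ' Cb
  have hex : ∀ R : ℤ[X], ∃ m, 0 ≤ aeval β R → HasRep β m (aeval β R) := by
    intro R
    by_cases hR : 0 ≤ aeval β R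
    · obtain ⟨m, hm⟩ := exists_hasRep c0 c1 c2 β β' h0 hβ hβ' hn h1 h2 R hR
      exact ⟨m, fun _ => hm⟩
    · exact ⟨0, fun h => absurd h hR⟩
  choose f hf using hex
  set m0 := hfin.toFinset.sup f with hm0
  refine ⟨max m0 ⌊β⌋₊, ?_⟩
  intro X' hX0 hX1
  -- the orbit
  let x : ℕ → ℤ[X] := fun n => (greedy β)^[n] X'
  have hx : ∀ n, 0 ≤ aeval β (x n) ∧ aeval β (x n) < 1 := by
    intro n
    induction n with
    | zero => exact ⟨hX0, hX1⟩
    | succ n ih =>
      simp only [x, Function.iterate_succ_apply']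
      rw [greedy]
      simp only [map_sub, map_mul, aeval_X, eq_intCast, map_intCast]
      constructor
      · have := Int.floor_le (β * aeval β ((greedy β)^[n] X'))
        linarith
      · have := Int.lt_floor_add_one (β * aeval β ((greedy β)^[n] X'))
        linarith
  have hfl : ∀ n, 0 ≤ ⌊β * aeval β (x n)⌋ ∧ ((⌊β * aeval β (x n)⌋ : ℤ) : ℝ) ≤ β := by
    intro n
    obtain ⟨a1, a2⟩ := hx n
    constructor
    · exact Int.floor_nonneg.mpr (by positivity)
    · refine (Int.floor_le _).trans ?_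
      nlinarith
  have hconj : ∀ n, ‖aeval β' (x n)‖ ≤ ‖β'‖ ^ n * ‖aeval β' X'‖ + β / (1 - ‖β'‖) := by
    intro n
    induction n with
    | zero =>
      simp only [x, Function.iterate_zero, id_eq, pow_zero, one_mul]
      have : 0 < β / (1 - ‖β'‖) := by positivity
      linarith
    | succ n ih =>
      have e : aeval β' (x (n + 1)) = β' * aeval β' (x n) - ((⌊β * aeval β (x n)⌋ : ℤ) : ℂ) := by
        simp only [x, Function.iterate_succ_apply']
        rw [greedy]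
        simp only [map_sub, map_mul, aeval_X, eq_intCast, map_intCast]
      rw [e]
      have b1 : ‖((⌊β * aeval β (x n)⌋ : ℤ) : ℂ)‖ ≤ β := by
        rw [Complex.norm_intCast, abs_of_nonneg (by exact_mod_cast (hfl n).1)]
        exact (hfl n).2
      calc ‖β' * aeval β' (x n) - ((⌊β * aeval β (x n)⌋ : ℤ) : ℂ)‖
          ≤ ‖β' * aeval β' (x n)‖ + ‖((⌊β * aeval β (x n)⌋ : ℤ) : ℂ)‖ := norm_sub_le _ _
        _ ≤ ‖β'‖ * (‖β'‖ ^ n * ‖aeval β' X'‖ + β / (1 - ‖β'‖)) + β := by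
            rw [norm_mul]; gcongr
        _ = ‖β'‖ ^ (n + 1) * ‖aeval β' X'‖ + β / (1 - ‖β'‖) := by
            rw [pow_succ]
            field_simp
            ring
  obtain ⟨n, hn1⟩ : ∃ n, ‖β'‖ ^ n * ‖aeval β' X'‖ ≤ 1 := by
    have ht : Filter.Tendsto (fun n : ℕ => ‖β'‖ ^ n * ‖aeval β' X'‖) Filter.atTop (nhds 0) := by
      have := (tendsto_pow_atTop_nhds_zero_of_lt_one (norm_nonneg β') hn).mul_const ‖aeval β' X'‖
      simpa using this
    exact ((ht.eventually (gt_mem_nhds one_pos)).mono fun _ h => h.le).exists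
  -- the remainder lies in the finite set
  have hrep : HasRep β (max m0 ⌊β⌋₊) (aeval β (x n)) := by
    set R := x n %ₘ F with hR
    have e := modByMonic_add_div (x n) F
    have e1 : aeval β R = aeval β (x n) := by
      have := congrArg (aeval β) e
      rw [map_add, map_mul, hFβ, zero_mul, add_zero] at this
      exact this
    have e2 : aeval β' R = aeval β' (x n) := by
      have := congrArg (aeval β') e
      rw [map_add, map_mul, hFβ', zero_mul, add_zero] at this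
      exact this
    have hmem : R ∈ hfin.toFinset := by
      rw [Set.Finite.mem_toFinset]
      refine ⟨?_, ?_, ?_⟩
      · have := natDegree_modByMonic_lt (x n) hFm (by
          intro h
          rw [h] at hFd
          simp at hFd)
        rw [hFd, ← hR] at this
        omega
      · rw [e1, abs_of_nonneg (hx n).1]
        exact (hx n).2.le.trans hCb1
      · rw [e2]
        exact (hconj n).trans (by rw [hCb]; linarith)
    have h3 := hf R (by rw [e1]; exact (hx n).1)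
    rw [e1] at h3
    exact h3.mono ((Finset.le_sup (f := f) hmem).trans (le_max_left _ _))
  -- descend
  have hdesc : ∀ j, j ≤ n → HasRep β (max m0 ⌊β⌋₊) (aeval β (x (n - j))) := by
    intro j
    induction j with
    | zero => intro _; exact hrep
    | succ j ih =>
      intro hj
      have h3 := ih (by omega)
      obtain ⟨i, hi⟩ : ∃ i, n - (j + 1) = i ∧ n - j = i + 1 := ⟨n - (j + 1), rfl, by omega⟩
      rw [hi.1]
      rw [hi.2] at h3
      have e : aeval β (x (i + 1)) = β * aeval β (x i) - ((⌊β * aeval β (x i)⌋ : ℤ) : ℝ) := by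
        simp only [x, Function.iterate_succ_apply']
        rw [greedy]
        simp only [map_sub, map_mul, aeval_X, eq_intCast, map_intCast]
      have hfi := hfl i
      have hd : (⌊β * aeval β (x i)⌋).toNat ≤ max m0 ⌊β⌋₊ := by
        refine le_trans ?_ (le_max_right _ _)
        apply Nat.le_floor
        have : (((⌊β * aeval β (x i)⌋).toNat : ℕ) : ℝ) = ((⌊β * aeval β (x i)⌋ : ℤ) : ℝ) := by
          exact_mod_cast congrArg (Int.cast : ℤ → ℝ) (Int.toNat_of_nonneg hfi.1)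
        rw [this]
        exact hfi.2
      have h4 := h3.cons hβ0 _ hd
      have : (((⌊β * aeval β (x i)⌋).toNat : ℕ) : ℝ) = ((⌊β * aeval β (x i)⌋ : ℤ) : ℝ) := by
        exact_mod_cast congrArg (Int.cast : ℤ → ℝ) (Int.toNat_of_nonneg hfi.1)
      rw [this, e] at h4
      have e5 : (((⌊β * aeval β (x i)⌋ : ℤ) : ℝ) +
          (β * aeval β (x i) - ((⌊β * aeval β (x i)⌋ : ℤ) : ℝ))) / β = aeval β (x i) := by
        field_simp
        ring
      rwa [e5] at h4
  have := hdesc n le_rfl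
  simpa [x] using this

/-- **Answer to Q1 (yes).**  Let `β > 1` be a real cubic Pisot unit with a non-real conjugate.
Then there is `m` such that every element of `ℤ[β] ∩ [0,1)` has a finite `β`-representation over
the alphabet `{0,…,m}`. -/
theorem result (β : ℝ) (hint : IsIntegral ℤ β) (hdeg : (minpoly ℤ β).natDegree = 3)
    (hunit : IsUnit ((minpoly ℤ β).coeff 0)) (hβ : 1 < β)
    (hpisot : ∀ z : ℂ, aeval z (minpoly ℤ β) = 0 → z ≠ β → ‖z‖ < 1)
    (hnonreal : ∃ z : ℂ, aeval z (minpoly ℤ β) = 0 ∧ z.im ≠ 0) :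
    ∃ m : ℕ, ∀ x ∈ Algebra.adjoin ℤ {β}, 0 ≤ x → x < 1 →
      ∃ (k : ℕ) (a : ℕ → ℕ), (∀ j, a j ≤ m) ∧ x = ∑ j ∈ range k, (a j : ℝ) / β ^ (j + 1) := by
  obtain ⟨β', hβ'1, hβ'2⟩ := hnonreal
  have hm := minpoly.monic hint
  have hlead : (minpoly ℤ β).coeff 3 = 1 := by
    rw [← hdeg]; exact hm
  set c0 := (minpoly ℤ β).coeff 0 with hc0
  set c1 := (minpoly ℤ β).coeff 1 with hc1
  set c2 := (minpoly ℤ β).coeff 2 with hc2
  have h0 : c0 ^ 2 = 1 := by
    rcases Int.isUnit_iff.mp hunit with h | h <;> rw [h] <;> norm_num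
  have heval : ∀ {R : Type} [Field R] (z : R), aeval z (minpoly ℤ β) = 0 →
      z ^ 3 + c2 * z ^ 2 + c1 * z + c0 = 0 := by
    intro R _ z hz
    rw [aeval_eq_sum_range' (show (minpoly ℤ β).natDegree < 4 by omega)] at hz
    simp only [Finset.sum_range_succ, Finset.sum_range_zero, zsmul_eq_mul, hlead, ← hc0, ← hc1,
      ← hc2] at hz
    push_cast at hz
    linear_combination hz
  have h1 := heval β (minpoly.aeval ℤ β)
  have h2 := heval β' hβ'1
  have hne : β' ≠ β := by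
    intro h
    rw [h] at hβ'2
    simp at hβ'2
  obtain ⟨m, hmm⟩ := uniform c0 c1 c2 β β' h0 hβ hβ'2 (hpisot β' hβ'1 hne) h1 h2
  refine ⟨m, ?_⟩
  intro x hx hx0 hx1
  rw [Algebra.adjoin_singleton_eq_range_aeval] at hx
  obtain ⟨X', rfl⟩ := hx
  exact hmm X' hx0 hx1

end Pool.Agent.Results.MP_f878ff_nt.FiniteRepresentations
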